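import Pool.Agent.H44.DG.Targets

/-! Module FIN of the board `dg_modules`: Hamiltonian paths in final positions. -/

namespace Pool.Agent.H48.DG.FIN

open Pool.Agent.H44.DG

variable {V : Type}

lemma achain_iff (F : Multiset (Region V)) (a : V) (l : List V) :
    AChain F a l ↔ List.IsChain (Adj F) (a :: l) := by
  induction l generalizing a with
  | nil => simp [AChain]
  | cons x l ih =>
    rw [List.isChain_cons_cons, ← ih x]
    rfl

lemma hp_symm {F : Multiset (Region V)} {a b : V} {W : Multiset V} (h : HP F a b W) : HP F b a W := by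
  obtain ⟨l, hl, hc⟩ := h
  refine ⟨l.reverse, ?_, ?_⟩
  · rw [← hl]
    exact Multiset.coe_reverse l
  · rw [achain_iff] at hc ⊢
    have h1 : b :: (l.reverse ++ [a]) = (a :: (l ++ [b])).reverse := by simp
    rw [h1, List.isChain_reverse]
    exact hc.imp fun x y hxy => hxy.symm

lemma real_cons (c : Ctx V) (x : Tag × Cycle ℕ) (G : LF) : real c (x ::ₘ G) = real1 c x + real c G := by
  simp [real]

lemma toLF_cons (x : Tag × List ℕ) (L : List (Tag × List ℕ)) :
    toLF (x :: L) = (x.1, (x.2 : Cycle ℕ)) ::ₘ toLF L := rfl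

lemma floats_zero {fl : Region V} {W : Multiset V} (h : Floats fl W) (h0 : fl = 0) : W = 0 := by
  cases h with
  | nil => rfl
  | k1 v fl W h => exact absurd h0 (Multiset.cons_ne_zero)
  | k2 v w fl W h => exact absurd h0 (Multiset.cons_ne_zero)

lemma floats_mem {fl : Region V} {W : Multiset V} (h : Floats fl W) : ∀ u ∈ fl, ∀ v ∈ u, v ∈ W := by
  induction h with
  | nil => simp
  | k1 v fl W h ih =>
    intro u hu x hx
    rcases Multiset.mem_cons.1 hu with rfl | hu
    · simp at hx; simp [hx]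
    · exact Multiset.mem_cons_of_mem (ih u hu x hx)
  | k2 v w fl W h ih =>
    intro u hu x hx
    rcases Multiset.mem_cons.1 hu with rfl | hu
    · simp at hx; rcases hx with rfl | rfl <;> simp
    · exact Multiset.mem_cons_of_mem (Multiset.mem_cons_of_mem (ih u hu x hx))

lemma floats_walk {fl : Region V} {W : Multiset V} (h : Floats fl W) :
    fl = 0 ∨ ∃ (v : V) (m : List V) (fl' : Region V), fl = (↑(v :: m) : Cycle V) ::ₘ fl' := by
  cases h with
  | nil => exact Or.inl rfl
  | k1 v fl W h => exact Or.inr ⟨v, [], fl, rfl⟩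
  | k2 v w fl W h => exact Or.inr ⟨v, [w], fl, rfl⟩

/-- a floating boundary walk in the triangle can be joined -/
lemma join_step (c : Ctx V) (hc : COK c 3 (toLF [(.R 0, [0, 1, 2])])) (v : V) (m : List V) (fl' : Region V)
    (hfl : c.FL 0 = (↑(v :: m) : Cycle V) ::ₘ fl') :
    ∃ F', LStep (real c (toLF [(.R 0, [0, 1, 2])])) F' := by
  have hmem : (Tag.R 0, (↑[0, 1, 2] : Cycle ℕ)) ∈ toLF [(Tag.R 0, [0, 1, 2])] := by
    simp [toLF]
  obtain ⟨hr1, hr2⟩ := hc.rloc 0 _ hmem
  have hvW : v ∈ c.WL 0 := by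
    refine hr1 (↑(v :: m) : Cycle V) ?_ v (by simp)
    rw [hfl]; exact Multiset.mem_cons_self _ _
  have hnd := hc.nodup
  have hvs : vs c (toLF [(Tag.R 0, [0, 1, 2])]) = c.WL 0 := by
    simp [toLF, vs, vs1]
  rw [hvs, Multiset.nodup_add] at hnd
  obtain ⟨-, -, hdis⟩ := hnd
  have hf : ∀ i < 3, c.f i ∉ c.WL 0 := by
    intro i hi hiW
    refine Multiset.disjoint_left.1 hdis ?_ hiW
    rw [Multiset.mem_coe]
    exact List.mem_map.2 ⟨i, List.mem_range.2 hi, rfl⟩
  have hreal : real c (toLF [(Tag.R 0, [0, 1, 2])]) =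
      ((↑[c.f 0, c.f 1, c.f 2] : Cycle V) ::ₘ (↑(v :: m) : Cycle V) ::ₘ fl') ::ₘ c.FI 0 := by
    rw [← hfl]
    simp [toLF, real, real1]
  have hne : c.f 0 ≠ v := fun h => hf 0 (by norm_num) (h ▸ hvW)
  have hnadj : ¬ Adj (real c (toLF [(Tag.R 0, [0, 1, 2])])) (c.f 0) v := by
    rw [hreal, ← hfl, adj_cons, adj_sing]
    rintro (⟨w, hw, hd⟩ | h)
    · have h1 : c.f 0 ∈ w := hd.elim IsDart.mem_left IsDart.mem_right
      have h2 : v ∈ w := hd.elim IsDart.mem_right IsDart.mem_left
      rcases Multiset.mem_cons.1 hw with rfl | hw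
      · simp only [Cycle.mem_coe_iff, List.mem_cons, List.not_mem_nil, or_false] at h2
        rcases h2 with h2 | h2 | h2
        · exact hne h2.symm
        · exact hf 1 (by norm_num) (h2 ▸ hvW)
        · exact hf 2 (by norm_num) (h2 ▸ hvW)
      · exact hf 0 (by norm_num) (hr1 w hw _ h1)
    · exact hf 0 (by norm_num) (hr2 _ h.left)
  refine ⟨{(↑(joinWalk (c.f 0) [c.f 1, c.f 2] v m) : Cycle V) ::ₘ fl'} + c.FI 0, c.f 0, v, hne, hnadj, _, _, _,
    hreal, rfl, RegionMove.join [c.f 1, c.f 2] m fl'⟩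

lemma open_facts : ∀ S ∈ openList, 3 ≤ S.1 ∧
    (∀ x ∈ ((Tag.R 0, S.2.1) :: S.2.2), ∀ i ∈ x.2, i < S.1) ∧
    (∀ x ∈ ((Tag.R 0, S.2.1) :: S.2.2), x.1 = .R 0 ∨ x.1 = .E ∨ (x.1 = .T 0 ∧ ∃ a b c : ℕ, a ≠ b ∧ b ≠ c ∧ c ≠ a ∧ x.2 = [a, b, c])) := by
  intro S hS
  simp only [openList, List.mem_cons, List.not_mem_nil, or_false] at hS
  rcases hS with rfl | rfl | rfl | rfl | rfl | rfl <;> refine ⟨by norm_num, by decide, ?_⟩
  · simp
  · simp
  · simp
  · intro x hx
    simp only [List.mem_cons, List.not_mem_nil, or_false] at hx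
    rcases hx with rfl | rfl | rfl
    · simp
    · simp
    · right; right; exact ⟨rfl, 3, 0, 4, by norm_num, by norm_num, by norm_num, rfl⟩
  · intro x hx
    simp only [List.mem_cons, List.not_mem_nil, or_false] at hx
    rcases hx with rfl | rfl | rfl
    · simp
    · simp
    · right; right; exact ⟨rfl, 0, 3, 4, by norm_num, by norm_num, by norm_num, rfl⟩
  · simp

lemma mem_toLF {x : Tag × Cycle ℕ} {L : List (Tag × List ℕ)} :
    x ∈ toLF L ↔ ∃ y ∈ L, (y.1, (y.2 : Cycle ℕ)) = x := by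
  simp [toLF]

/-- in the open pictures with more than the triangle there is a move -/
lemma open_move : ∀ S ∈ openList, S.2.1 ≠ [0, 1, 2] →
    ∃ L', LMove (toLF ((.R 0, S.2.1) :: S.2.2)) L' := by
  intro S hS hne
  simp only [openList, List.mem_cons, List.not_mem_nil, or_false] at hS
  rcases hS with rfl | rfl | rfl | rfl | rfl | rfl
  · exact absurd rfl hne
  · have h := LMove.R 0 1 3 [2, 0] [0] (toLF []) (by decide) (by decide)
    have e : (Tag.R 0, (↑(1 :: ([2, 0] ++ 3 :: [0])) : Cycle ℕ)) ::ₘ toLF [] = toLF [(Tag.R 0, [0, 1, 2, 0, 3])] := by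
      decide
    rw [e] at h
    exact ⟨_, h⟩
  · have h := LMove.R 0 1 3 [2, 0] [4, 3, 0] (toLF []) (by decide) (by decide)
    have e : (Tag.R 0, (↑(1 :: ([2, 0] ++ 3 :: [4, 3, 0])) : Cycle ℕ)) ::ₘ toLF [] =
        toLF [(Tag.R 0, [0, 1, 2, 0, 3, 4, 3])] := by
      decide
    rw [e] at h
    exact ⟨_, h⟩
  · have h := LMove.R 0 2 3 [0] [4, 1] (toLF [(.E, [0, 1, 4]), (.T 0, [3, 0, 4])]) (by decide) (by decide)
    have e : (Tag.R 0, (↑(2 :: ([0] ++ 3 :: [4, 1])) : Cycle ℕ)) ::ₘ toLF [(.E, [0, 1, 4]), (.T 0, [3, 0, 4])] =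
        toLF [(Tag.R 0, [1, 2, 0, 3, 4]), (.E, [0, 1, 4]), (.T 0, [3, 0, 4])] := by
      decide
    rw [e] at h
    exact ⟨_, h⟩
  · have h := LMove.R 0 1 3 [2, 4] [0] (toLF [(.E, [2, 0, 4]), (.T 0, [0, 3, 4])]) (by decide) (by decide)
    have e : (Tag.R 0, (↑(1 :: ([2, 4] ++ 3 :: [0])) : Cycle ℕ)) ::ₘ toLF [(.E, [2, 0, 4]), (.T 0, [0, 3, 4])] =
        toLF [(Tag.R 0, [0, 1, 2, 4, 3]), (.E, [2, 0, 4]), (.T 0, [0, 3, 4])] := by
      decide
    rw [e] at h
    exact ⟨_, h⟩
  · have h := LMove.R 0 1 3 [2] [0] (toLF [(.E, [2, 0, 3])]) (by decide) (by decide)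
    have e : (Tag.R 0, (↑(1 :: ([2] ++ 3 :: [0])) : Cycle ℕ)) ::ₘ toLF [(.E, [2, 0, 3])] =
        toLF [(Tag.R 0, [0, 1, 2, 3]), (.E, [2, 0, 3])] := by
      decide
    rw [e] at h
    exact ⟨_, h⟩

lemma open_three : ∀ S ∈ openList, S.2.1 = [0, 1, 2] → S = (3, [0, 1, 2], []) := by
  intro S hS h
  simp only [openList, List.mem_cons, List.not_mem_nil, or_false] at hS
  rcases hS with rfl | rfl | rfl | rfl | rfl | rfl
  · rfl
  all_goals exact absurd h (by decide)

/-- validity of the realisation of an open picture -/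
lemma open_cok (hNOD : T_NOD) (hLOC : T_LOC) {n : ℕ} {r : List ℕ} {base : List (Tag × List ℕ)}
    (hS : (n, r, base) ∈ openList) (c : Ctx V)
    (hT : ∀ i w, (Tag.T i, w) ∈ toLF base → Reg (w.map c.f) (c.WS i) (c.FS i))
    (hr : (∀ u ∈ c.FL 0, ∀ v ∈ u, v ∈ c.WL 0) ∧ ∀ v, InR (c.FI 0) v → v ∈ c.WL 0)
    (hnd : ((↑[c.f 0, c.f 1, c.f 2] : Cycle V).toMultiset + (((inner n).map c.f : Multiset V) +
      vs c (toLF ((.R 0, r) :: base)))).Nodup) : COK c n (toLF ((.R 0, r) :: base)) := by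
  obtain ⟨h3, hlab, htri⟩ := open_facts _ hS
  dsimp only at h3 hlab htri
  have hlab' : ∀ x ∈ toLF ((.R 0, r) :: base), ∀ i ∈ x.2, i < n := by
    intro x hx i hi
    obtain ⟨y, hy, rfl⟩ := mem_toLF.1 hx
    exact hlab y hy i (Cycle.mem_coe_iff.1 hi)
  have htri' : ∀ x ∈ toLF ((.R 0, r) :: base), ∀ i, x.1 = Tag.T i → Tri3 x.2 := by
    intro x hx i hi
    obtain ⟨y, hy, rfl⟩ := mem_toLF.1 hx
    dsimp only at hi
    rcases htri y hy with h | h | ⟨-, a, b, c, hab, hbc, hca, h⟩
    · rw [h] at hi; exact absurd hi (by simp)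
    · rw [h] at hi; exact absurd hi (by simp)
    · exact ⟨a, b, c, hab, hbc, hca, by dsimp only; rw [h]⟩
  obtain ⟨h1, -, -⟩ := hNOD V c n _ h3 hnd hlab' htri'
  refine ⟨h1, hlab', htri', ?_, ?_⟩
  · intro i w hw
    rw [toLF_cons, Multiset.mem_cons] at hw
    rcases hw with hw | hw
    · exact absurd hw (by simp)
    · exact (hLOC V _ _ _ (hT i w hw)).1
  · intro k w hw
    obtain ⟨y, hy, he⟩ := mem_toLF.1 hw
    have hk : k = 0 := by
      have he1 : y.1 = Tag.R k := by simpa using congrArg Prod.fst he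
      rcases htri y hy with h | h | ⟨h, -⟩
      · rw [h] at he1; simpa using he1.symm
      · rw [h] at he1; exact absurd he1 (by simp)
      · rw [h] at he1; exact absurd he1 (by simp)
    subst hk
    exact hr

theorem pf_FIN' (hADJ : T_ADJ) (hLMR : T_LMR) (hNOD : T_NOD) (hLOC : T_LOC) (hPTH : T_PTH) : T_FIN := by
  intro V o W F hnd hR
  revert hnd
  induction hR with
  | comp n L hL c hT ih =>
    intro hnd hst
    obtain ⟨h1, h2, -⟩ := hNOD V c n L hL.three hnd hL.lab hL.tri
    have hcok : COK c n L := by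
      refine ⟨h1, hL.lab, hL.tri, ?_, ?_⟩
      · intro i w hw
        exact (hLOC V _ _ _ (hT i w hw)).1
      · intro k w hw
        exact absurd rfl (hL.noR _ hw k)
    have hparts : ∀ i w, (Tag.T i, w) ∈ L → ∀ a b, a ∈ w.map c.f → b ∈ w.map c.f → a ≠ b →
        HP (c.FS i) a b (c.WS i) := by
      intro i w hw
      refine ih i w hw (h2 i w hw) ?_
      intro F' hF'
      obtain ⟨G, rfl⟩ := Multiset.exists_cons_of_mem hw
      refine hst (F' + real c G) ?_
      rw [real_cons]
      refine hF'.lift ((hLOC V _ _ _ (hT i w hw)).1) ?_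
      intro x hx hxW
      exact ((hADJ V c n _ hcok).2.2.2 _ G rfl x hxW).1 hx
    have hpath : PathOK n L := by
      cases hL.rob with
      | path _ h => exact h
      | step _ h h' =>
        obtain ⟨L', hL'⟩ := h
        exact absurd (hLMR V c n L L' hcok hL').1 (hst _)
    obtain ⟨p01, p12, p20⟩ := hpath
    have q01 := hPTH V c n L hL hcok hparts 0 1 (by norm_num) (by norm_num) (by norm_num) p01
    have q12 := hPTH V c n L hL hcok hparts 1 2 (by norm_num) (by norm_num) (by norm_num) p12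
    have q20 := hPTH V c n L hL hcok hparts 2 0 (by norm_num) (by norm_num) (by norm_num) p20
    intro a b ha hb hab
    simp only [Cycle.mem_coe_iff, List.mem_cons, List.not_mem_nil, or_false] at ha hb
    rcases ha with rfl | rfl | rfl <;> rcases hb with rfl | rfl | rfl
    · exact absurd rfl hab
    · exact q01
    · exact hp_symm q20
    · exact hp_symm q01
    · exact absurd rfl hab
    · exact q12
    · exact q20
    · exact hp_symm q12
    · exact absurd rfl hab
  | openA n r base hS c hT hfl hFI ih =>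
    intro hnd hst
    have hcok : COK c n (toLF ((.R 0, r) :: base)) := by
      refine open_cok hNOD hLOC hS c hT ⟨floats_mem hfl, ?_⟩ hnd
      intro v hv
      rw [hFI] at hv
      exact absurd hv (inR_zero v)
    by_cases hr : r = [0, 1, 2]
    · have h3 := open_three _ hS hr
      simp only [Prod.mk.injEq] at h3
      obtain ⟨rfl, -, rfl⟩ := h3
      subst hr
      rcases floats_walk hfl with h0 | ⟨v, m, fl', h0⟩
      · have hR : Reg ↑[c.f 0, c.f 1, c.f 2] (((inner 3).map c.f : Multiset V) + vs c (toLF [(.R 0, [0, 1, 2])]))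
            (real c (toLF [(.R 0, [0, 1, 2])])) := Reg.openA 3 [0, 1, 2] [] hS c hT hfl hFI
        have hloc := (hLOC V _ _ _ hR).1
        intro a b ha hb hab
        refine ⟨[], ?_, ?_⟩
        · have hW := floats_zero hfl h0
          have hin : Pool.Agent.H44.DG.inner 3 = [] := by decide
          simp [hin, toLF, vs, vs1, hW]
        · exact ⟨hloc.2 a b ha hb hab, trivial⟩
      · obtain ⟨F', hF'⟩ := join_step c hcok v m fl' h0
        exact absurd hF' (hst F')
    · obtain ⟨L', hL'⟩ := open_move _ hS hr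
      exact absurd (hLMR V c n _ L' hcok hL').1 (hst _)
  | openB n r base hS c hT x y z W' hFL hWL hB ih ihB =>
    intro hnd hst
    have hcok : COK c n (toLF ((.R 0, r) :: base)) := by
      refine open_cok hNOD hLOC hS c hT ⟨?_, ?_⟩ hnd
      · intro u hu v hv
        rw [hFL, Multiset.mem_singleton] at hu
        subst hu
        rw [hWL]
        simp only [Cycle.mem_coe_iff, List.mem_cons, List.not_mem_nil, or_false] at hv
        rcases hv with rfl | rfl | rfl <;> simp
      · intro v hv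
        rcases (hLOC V _ _ _ hB).1.1 v hv with h | h
        · simp only [Cycle.mem_coe_iff, List.mem_cons, List.not_mem_nil, or_false] at h
          rw [hWL]
          rcases h with rfl | rfl | rfl <;> simp
        · rw [hWL]
          simp [h]
    by_cases hr : r = [0, 1, 2]
    · have h3 := open_three _ hS hr
      simp only [Prod.mk.injEq] at h3
      obtain ⟨rfl, -, rfl⟩ := h3
      subst hr
      obtain ⟨F', hF'⟩ := join_step c hcok x [y, z] 0 hFL
      exact absurd hF' (hst F')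
    · obtain ⟨L', hL'⟩ := open_move _ hS hr
      exact absurd (hLMR V c n _ L' hcok hL').1 (hst _)

end Pool.Agent.H48.DG.FIN
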