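import Pool.Agent.H44.DG.Targets4

/-! Module SD: the edges at a vertex are linked through the corners at this vertex. -/

namespace Pool.Agent.H48.DG.SD

open Pool.Agent.H44.DG

variable {V : Type}

lemma getLastD_app (l : List V) (v : V) (m : List V) (u : V) : (l ++ v :: m).getLastD u = m.getLastD v := by
  induction l generalizing u with
  | nil => rw [List.nil_append, List.getLastD_cons]
  | cons c l ih => rw [List.cons_append, List.getLastD_cons, ih]

/-- consecutive triples of a list -/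
def trs : List V → List (V × V × V)
  | x :: y :: z :: l => (x, y, z) :: trs (y :: z :: l)
  | _ => []

@[simp] lemma trs_two (x y : V) : trs [x, y] = [] := by simp [trs]
@[simp] lemma trs_one (x : V) : trs [x] = [] := by simp [trs]
@[simp] lemma trs_nil : trs ([] : List V) = [] := by simp [trs]
lemma trs_ccc (x y z : V) (l : List V) : trs (x :: y :: z :: l) = (x, y, z) :: trs (y :: z :: l) := by
  simp [trs]

lemma trs_cons (u v w : V) (m : List V) :
    trs (u :: v :: (m ++ [w])) = (u, v, m.headD w) :: trs (v :: (m ++ [w])) := by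
  cases m with
  | nil => simp [trs_ccc]
  | cons a m => simp [trs_ccc]

lemma trs_join (u : V) (l : List V) (v : V) (m : List V) (w : V) :
    trs (u :: (l ++ v :: (m ++ [w]))) =
      trs (u :: (l ++ [v])) ++ (l.getLastD u, v, m.headD w) :: trs (v :: (m ++ [w])) := by
  induction l generalizing u with
  | nil => simp [trs_cons]
  | cons c l ih =>
    have h1 : trs (u :: (c :: l ++ v :: (m ++ [w])))
        = (u, c, l.headD v) :: trs (c :: (l ++ v :: (m ++ [w]))) := by
      cases l with
      | nil => simp [trs_ccc]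
      | cons d l => simp [trs_ccc]
    rw [h1, ih, List.cons_append, trs_cons, List.cons_append, List.getLastD_cons]

/-- closed consecutive triples of the cyclic list given by a list -/
def ctr : List V → List (V × V × V)
  | u :: c :: l => trs (u :: c :: (l ++ [u, c]))
  | _ => []

@[simp] lemma ctr_one (x : V) : ctr [x] = [] := by simp [ctr]
@[simp] lemma ctr_nil : ctr ([] : List V) = [] := by simp [ctr]
lemma ctr_cc (u c : V) (l : List V) : ctr (u :: c :: l) = trs (u :: c :: (l ++ [u, c])) := by simp [ctr]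

lemma ctr_cut (u : V) (l : List V) (hl : l ≠ []) :
    ctr (u :: l) = trs (u :: (l ++ [u])) ++ [(l.getLastD u, u, l.headD u)] := by
  cases l with
  | nil => exact absurd rfl hl
  | cons c l =>
    rw [ctr_cc]
    have := trs_join u (c :: l) u [] c
    simpa using this

lemma ctr_rot_one (a : V) (t : List V) : (ctr (a :: t)).Perm (ctr (t ++ [a])) := by
  cases t with
  | nil => simp
  | cons b s =>
    cases s with
    | nil =>
      simp only [List.nil_append, List.cons_append, ctr_cc, trs_ccc, trs_two]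
      exact List.Perm.swap _ _ _
    | cons c s =>
      have h1 : ctr (a :: b :: c :: s) = (a, b, c) :: trs (b :: c :: (s ++ [a, b])) := by
        rw [ctr_cc, List.cons_append, trs_ccc]
      have h2 : ctr (b :: c :: s ++ [a]) = trs (b :: c :: (s ++ [a, b])) ++ [(a, b, c)] := by
        rw [List.cons_append, List.cons_append, ctr_cc]
        have h3 := trs_join b (c :: (s ++ [a])) b [] c
        have h4 : trs (b :: c :: (s ++ [a] ++ [b, c])) = trs (b :: (c :: (s ++ [a]) ++ b :: ([] ++ [c]))) := by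
          simp
        have h5 : (c :: (s ++ [a])).getLastD b = a := by
          have := getLastD_app (c :: s) a [] b
          simpa using this
        rw [h4, h3, h5]
        simp
      rw [h1, h2]
      exact (List.perm_append_singleton _ _).symm

lemma ctr_perm {L L' : List V} (h : L ~r L') : (ctr L).Perm (ctr L') := by
  obtain ⟨n, rfl⟩ := h
  induction n generalizing L with
  | zero => simp
  | succ n ih =>
    cases L with
    | nil => simp
    | cons a t =>
      rw [List.rotate_cons_succ]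
      exact (ctr_rot_one a t).trans ih

lemma mem_trs {x a y : V} {L : List V} (h : (x, a, y) ∈ trs L) : ∃ A B, L = A ++ x :: a :: y :: B := by
  induction L with
  | nil => simp at h
  | cons p L ih =>
    rcases L with _ | ⟨q, _ | ⟨r, L⟩⟩
    · simp at h
    · simp at h
    · rw [trs_ccc, List.mem_cons] at h
      rcases h with h | h
      · simp only [Prod.mk.injEq] at h
        exact ⟨[], L, by simp [h.1, h.2.1, h.2.2]⟩
      · obtain ⟨A, B, hAB⟩ := ih h
        exact ⟨p :: A, B, by rw [hAB]; rfl⟩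

lemma isCorner_coe {L : List V} {x a y : V} : IsCorner (↑L : Cycle V) x a y ↔ (x, a, y) ∈ ctr L := by
  constructor
  · rintro (⟨l, hl⟩ | ⟨rfl, hl⟩)
    · rw [(ctr_perm (Cycle.coe_eq_coe.1 hl)).mem_iff, ctr_cc, List.cons_append, trs_ccc]
      simp
    · rw [(ctr_perm (Cycle.coe_eq_coe.1 hl)).mem_iff, ctr_cc]
      simp [trs_ccc]
  · intro h
    rcases L with _ | ⟨p, _ | ⟨q, l⟩⟩
    · simp at h
    · simp at h
    · rw [ctr_cc] at h
      obtain ⟨A, B, hAB⟩ := mem_trs h
      rcases List.eq_nil_or_concat B with rfl | ⟨B, b, rfl⟩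
      · -- `y = q`, `a = p`
        have h1 : (p :: q :: l ++ [p]) ++ [q] = (A ++ [x, a]) ++ [y] := by simpa using hAB
        obtain ⟨h2, h3⟩ := List.append_inj' h1 rfl
        have h2' : (p :: q :: l) ++ [p] = (A ++ [x]) ++ [a] := by simpa using h2
        obtain ⟨h4, h5⟩ := List.append_inj' h2' rfl
        simp only [List.cons.injEq, and_true] at h3 h5
        subst h3 h5
        rcases A with _ | ⟨a', _ | ⟨a'', A⟩⟩
        · simp at h4
        · simp only [List.cons_append, List.nil_append, List.cons.injEq] at h4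
          obtain ⟨rfl, rfl, rfl⟩ := h4
          exact Or.inr ⟨rfl, coe_rot [p] [q]⟩
        · simp only [List.cons_append, List.cons.injEq] at h4
          obtain ⟨rfl, rfl, rfl⟩ := h4
          exact Or.inl ⟨A, coe_rot (p :: q :: A) [x]⟩
      · rcases List.eq_nil_or_concat B with rfl | ⟨B, c, rfl⟩
        · have h1 : (p :: q :: l ++ [p]) ++ [q] = (A ++ [x, a, y]) ++ [b] := by simpa using hAB
          obtain ⟨h2, h3⟩ := List.append_inj' h1 rfl
          have h2' : (p :: q :: l) ++ [p] = (A ++ [x, a]) ++ [y] := by simpa using h2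
          obtain ⟨h4, h5⟩ := List.append_inj' h2' rfl
          simp only [List.cons.injEq, and_true] at h3 h5
          subst h3 h5
          rcases A with _ | ⟨a', A⟩
          · simp only [List.nil_append, List.cons.injEq] at h4
            obtain ⟨rfl, rfl, rfl⟩ := h4
            exact Or.inr ⟨rfl, rfl⟩
          · simp only [List.cons_append, List.cons.injEq] at h4
            obtain ⟨rfl, h4⟩ := h4
            refine Or.inl ⟨A, ?_⟩
            rw [h4]
            exact coe_rot (p :: A) [x, a]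
        · have h1 : (p :: q :: l ++ [p]) ++ [q] = (A ++ x :: a :: y :: B ++ [c]) ++ [b] := by simpa using hAB
          obtain ⟨h2, h3⟩ := List.append_inj' h1 rfl
          obtain ⟨h4, h5⟩ := List.append_inj' h2 rfl
          refine Or.inl ⟨B ++ A, ?_⟩
          rw [h4, coe_rot]
          simp

/-- what the joined walk contains -/
lemma ctr_joinWalk (u v : V) (l m : List V) :
    (l ≠ [] → (∀ t ∈ trs (u :: (l ++ [u])), t ∈ ctr (joinWalk u l v m)) ∧
      (l.getLastD u, u, v) ∈ ctr (joinWalk u l v m) ∧ (v, u, l.headD u) ∈ ctr (joinWalk u l v m)) ∧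
    (m ≠ [] → (∀ t ∈ trs (v :: (m ++ [v])), t ∈ ctr (joinWalk u l v m)) ∧
      (m.getLastD v, v, u) ∈ ctr (joinWalk u l v m) ∧ (u, v, m.headD v) ∈ ctr (joinWalk u l v m)) := by
  unfold joinWalk
  rw [ctr_cc]
  rcases eq_or_ne l [] with rfl | hl <;> rcases eq_or_ne m [] with rfl | hm
  · simp
  · refine ⟨fun h => absurd rfl h, fun _ => ?_⟩
    rw [if_neg hm, if_pos rfl]
    have e : trs (u :: v :: (m ++ ([v] ++ []) ++ [u, v])) =
        (u, v, m.headD v) :: (trs (v :: (m ++ [v])) ++ (m.getLastD v, v, u) :: trs (v :: ([u] ++ [v]))) := by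
      have h1 := trs_cons u v v (m ++ [v, u])
      have h2 := trs_join v m v [u] v
      have h3 : trs (u :: v :: (m ++ ([v] ++ []) ++ [u, v])) = trs (u :: v :: (m ++ [v, u] ++ [v])) := by simp
      rw [h3, h1]
      have h4 : (m ++ [v, u]).headD v = m.headD v := by cases m <;> simp at hm ⊢
      have h5 : trs (v :: (m ++ [v, u] ++ [v])) = trs (v :: (m ++ v :: ([u] ++ [v]))) := by simp
      rw [h4, h5, h2]
      simp
    rw [e]
    refine ⟨fun t ht => ?_, ?_, ?_⟩ <;> simp [*]
  · refine ⟨fun _ => ?_, fun h => absurd rfl h⟩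
    rw [if_neg hl, if_pos rfl]
    have e : trs (u :: v :: ([] ++ ([] ++ u :: l) ++ [u, v])) =
        (u, v, u) :: (v, u, l.headD u) :: (trs (u :: (l ++ [u])) ++ [(l.getLastD u, u, v)]) := by
      have h1 := trs_cons v u v (l ++ [u])
      have h2 := trs_join u l u [] v
      have h3 : trs (u :: v :: ([] ++ ([] ++ u :: l) ++ [u, v])) = (u, v, u) :: trs (v :: u :: (l ++ [u] ++ [v])) := by
        simp [trs_ccc]
      have h4 : (l ++ [u]).headD v = l.headD u := by cases l <;> simp at hl ⊢
      have h5 : trs (u :: (l ++ [u] ++ [v])) = trs (u :: (l ++ u :: ([] ++ [v]))) := by simp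
      rw [h3, h1, h4, h5, h2]
      simp
    rw [e]
    refine ⟨fun t ht => ?_, ?_, ?_⟩ <;> simp [*]
  · rw [if_neg hl, if_neg hm]
    have e : trs (u :: v :: (m ++ ([v] ++ u :: l) ++ [u, v])) =
        (u, v, m.headD v) :: (trs (v :: (m ++ [v])) ++ (m.getLastD v, v, u) ::
          (v, u, l.headD u) :: (trs (u :: (l ++ [u])) ++ [(l.getLastD u, u, v)])) := by
      have h1 := trs_cons u v v (m ++ v :: u :: (l ++ [u]))
      have h2 := trs_join v m v (u :: (l ++ [u])) v
      have h3 := trs_cons v u v (l ++ [u])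
      have h4 := trs_join u l u [] v
      have h5 : trs (u :: v :: (m ++ ([v] ++ u :: l) ++ [u, v])) =
          trs (u :: v :: ((m ++ v :: u :: (l ++ [u])) ++ [v])) := by simp
      have h6 : (m ++ v :: u :: (l ++ [u])).headD v = m.headD v := by cases m <;> simp at hm ⊢
      have h7 : trs (v :: ((m ++ v :: u :: (l ++ [u])) ++ [v])) = trs (v :: (m ++ v :: (u :: (l ++ [u]) ++ [v]))) := by
        simp
      have h8 : (l ++ [u]).headD v = l.headD u := by cases l <;> simp at hl ⊢
      have h9 : trs (u :: (l ++ [u] ++ [v])) = trs (u :: (l ++ u :: ([] ++ [v]))) := by simp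
      rw [h5, h1, h6, h7, h2, List.cons_append, h3, h8, h9, h4]
      simp
    rw [e]
    refine ⟨fun _ => ⟨fun t ht => ?_, ?_, ?_⟩, fun _ => ⟨fun t ht => ?_, ?_, ?_⟩⟩ <;> simp [*]

lemma dart_last (u : V) (l : List V) (hl : l ≠ []) : (l.getLastD u, u) ∈ cprs (u :: l) := by
  rcases List.eq_nil_or_concat l with rfl | ⟨l, z, rfl⟩
  · exact absurd rfl hl
  · have h := (cprs_perm_of_isRotated (List.isRotated_append (l := u :: l) (l' := [z]))).mem_iff
      (a := (z, u))
    have h1 : (z, u) ∈ cprs ([z] ++ u :: l) := by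
      rw [List.singleton_append, cprs_cons_cons]
      simp
    have h2 := h.2 h1
    simpa using h2

/-- the corner structure of a move -/
def CornerOK (u v : V) (Φ : Region V) (Ψ : Multiset (Region V)) : Prop :=
  (∀ w ∈ Φ, ∀ x a y, IsCorner w x a y → (∃ Φ' ∈ Ψ, ∃ w' ∈ Φ', IsCorner w' x a y) ∨
    (a = u ∧ (∃ Φ' ∈ Ψ, ∃ w' ∈ Φ', IsCorner w' x u v) ∧ (∃ Φ' ∈ Ψ, ∃ w' ∈ Φ', IsCorner w' v u y)) ∨
    (a = v ∧ (∃ Φ' ∈ Ψ, ∃ w' ∈ Φ', IsCorner w' x v u) ∧ (∃ Φ' ∈ Ψ, ∃ w' ∈ Φ', IsCorner w' u v y))) ∧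
  ((∃ R, Φ = (↑[u] : Cycle V) ::ₘ R) ∨
    ∃ z, (∃ w ∈ Φ, IsDart w z u) ∧ (∃ Φ' ∈ Ψ, ∃ w' ∈ Φ', IsCorner w' z u v)) ∧
  ((∃ R, Φ = (↑[v] : Cycle V) ::ₘ R) ∨
    ∃ z, (∃ w ∈ Φ, IsDart w z v) ∧ (∃ Φ' ∈ Ψ, ∃ w' ∈ Φ', IsCorner w' z v u))

lemma cornerOK_join (u v : V) (l m : List V) (R : Region V) :
    CornerOK u v ((↑(u :: l) : Cycle V) ::ₘ (↑(v :: m) : Cycle V) ::ₘ R)
        {(↑(joinWalk u l v m) : Cycle V) ::ₘ R} := by
  obtain ⟨hl, hm⟩ := ctr_joinWalk u v l m
  refine ⟨?_, ?_, ?_⟩
  · intro w hw x a y hc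
    rcases Multiset.mem_cons.1 hw with rfl | hw
    · rw [isCorner_coe] at hc
      rcases eq_or_ne l [] with rfl | hl'
      · simp at hc
      · rw [ctr_cut _ _ hl', List.mem_append, List.mem_singleton] at hc
        rcases hc with hc | hc
        · left
          exact ⟨_, Multiset.mem_singleton_self _, _, Multiset.mem_cons_self _ _,
            isCorner_coe.2 ((hl hl').1 _ hc)⟩
        · simp only [Prod.mk.injEq] at hc
          obtain ⟨rfl, rfl, rfl⟩ := hc
          right; left
          exact ⟨rfl, ⟨_, Multiset.mem_singleton_self _, _, Multiset.mem_cons_self _ _,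
            isCorner_coe.2 (hl hl').2.1⟩, ⟨_, Multiset.mem_singleton_self _, _, Multiset.mem_cons_self _ _,
            isCorner_coe.2 (hl hl').2.2⟩⟩
    · rcases Multiset.mem_cons.1 hw with rfl | hw
      · rw [isCorner_coe] at hc
        rcases eq_or_ne m [] with rfl | hm'
        · simp at hc
        · rw [ctr_cut _ _ hm', List.mem_append, List.mem_singleton] at hc
          rcases hc with hc | hc
          · left
            exact ⟨_, Multiset.mem_singleton_self _, _, Multiset.mem_cons_self _ _,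
              isCorner_coe.2 ((hm hm').1 _ hc)⟩
          · simp only [Prod.mk.injEq] at hc
            obtain ⟨rfl, rfl, rfl⟩ := hc
            right; right
            exact ⟨rfl, ⟨_, Multiset.mem_singleton_self _, _, Multiset.mem_cons_self _ _,
              isCorner_coe.2 (hm hm').2.1⟩, ⟨_, Multiset.mem_singleton_self _, _, Multiset.mem_cons_self _ _,
              isCorner_coe.2 (hm hm').2.2⟩⟩
      · left
        exact ⟨_, Multiset.mem_singleton_self _, w, Multiset.mem_cons_of_mem hw, hc⟩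
  · rcases eq_or_ne l [] with rfl | hl'
    · left
      exact ⟨_, rfl⟩
    · right
      exact ⟨_, ⟨_, Multiset.mem_cons_self _ _, isDart_coe.2 (dart_last u l hl')⟩,
        ⟨_, Multiset.mem_singleton_self _, _, Multiset.mem_cons_self _ _, isCorner_coe.2 (hl hl').2.1⟩⟩
  · rcases eq_or_ne m [] with rfl | hm'
    · left
      exact ⟨(↑(u :: l) : Cycle V) ::ₘ R, Multiset.cons_swap _ _ _⟩
    · right
      exact ⟨_, ⟨_, Multiset.mem_cons_of_mem (Multiset.mem_cons_self _ _), isDart_coe.2 (dart_last v m hm')⟩,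
        ⟨_, Multiset.mem_singleton_self _, _, Multiset.mem_cons_self _ _, isCorner_coe.2 (hm hm').2.1⟩⟩

lemma ctr_new (u v : V) (l : List V) : ctr (u :: (l ++ [v])) =
    trs (u :: (l ++ [v])) ++ [(l.getLastD u, v, u), (v, u, l.headD v)] := by
  rw [ctr_cut _ _ (by simp)]
  have h1 := trs_join u l v [] u
  have h2 : trs (u :: (l ++ [v] ++ [u])) = trs (u :: (l ++ v :: ([] ++ [u]))) := by simp
  have h3 : (l ++ [v]).headD u = l.headD v := by cases l <;> simp
  rw [h2, h1, h3]
  simp

lemma ctr_old (u v : V) (l m : List V) : ctr (u :: (l ++ v :: m)) =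
    trs (u :: (l ++ [v])) ++ (l.getLastD u, v, m.headD u) :: (trs (v :: (m ++ [u])) ++
      [(m.getLastD v, u, l.headD v)]) := by
  rw [ctr_cut _ _ (by simp)]
  have h1 := trs_join u l v m u
  have h2 : trs (u :: (l ++ v :: m ++ [u])) = trs (u :: (l ++ v :: (m ++ [u]))) := by simp
  have h3 : (l ++ v :: m).headD u = l.headD v := by cases l <;> simp
  have h4 : (l ++ v :: m).getLastD u = m.getLastD v := by
    rw [getLastD_app]
  rw [h2, h1, h3, h4]
  simp

lemma cornerOK_split (u v : V) (l m : List V) (R₁ R₂ : Region V) :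
    CornerOK u v ((↑(u :: (l ++ v :: m)) : Cycle V) ::ₘ (R₁ + R₂))
        {(↑(u :: (l ++ [v])) : Cycle V) ::ₘ R₁, (↑(v :: (m ++ [u])) : Cycle V) ::ₘ R₂} := by
  have hm1 : ((↑(u :: (l ++ [v])) : Cycle V) ::ₘ R₁) ∈ ({(↑(u :: (l ++ [v])) : Cycle V) ::ₘ R₁,
    (↑(v :: (m ++ [u])) : Cycle V) ::ₘ R₂} : Multiset (Region V)) := by simp
  have hm2 : ((↑(v :: (m ++ [u])) : Cycle V) ::ₘ R₂) ∈ ({(↑(u :: (l ++ [v])) : Cycle V) ::ₘ R₁,
    (↑(v :: (m ++ [u])) : Cycle V) ::ₘ R₂} : Multiset (Region V)) := by simp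
  refine ⟨?_, ?_, ?_⟩
  · intro w hw x a y hc
    rcases Multiset.mem_cons.1 hw with rfl | hw
    · rw [isCorner_coe, ctr_old] at hc
      simp only [List.mem_append, List.mem_cons, List.not_mem_nil, or_false, Prod.mk.injEq] at hc
      rcases hc with hc | ⟨rfl, rfl, rfl⟩ | hc | ⟨rfl, rfl, rfl⟩
      · left
        exact ⟨_, hm1, _, Multiset.mem_cons_self _ _, isCorner_coe.2 (by rw [ctr_new]; simp [hc])⟩
      · right; right
        exact ⟨rfl, ⟨_, hm1, _, Multiset.mem_cons_self _ _, isCorner_coe.2 (by rw [ctr_new]; simp)⟩,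
          ⟨_, hm2, _, Multiset.mem_cons_self _ _, isCorner_coe.2 (by rw [ctr_new]; simp)⟩⟩
      · left
        exact ⟨_, hm2, _, Multiset.mem_cons_self _ _, isCorner_coe.2 (by rw [ctr_new]; simp [hc])⟩
      · right; left
        exact ⟨rfl, ⟨_, hm2, _, Multiset.mem_cons_self _ _, isCorner_coe.2 (by rw [ctr_new]; simp)⟩,
          ⟨_, hm1, _, Multiset.mem_cons_self _ _, isCorner_coe.2 (by rw [ctr_new]; simp)⟩⟩
    · left
      rcases Multiset.mem_add.1 hw with hw | hw
      · exact ⟨_, hm1, w, Multiset.mem_cons_of_mem hw, hc⟩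
      · exact ⟨_, hm2, w, Multiset.mem_cons_of_mem hw, hc⟩
  · right
    refine ⟨m.getLastD v, ⟨_, Multiset.mem_cons_self _ _, isDart_coe.2 ?_⟩,
      ⟨_, hm2, _, Multiset.mem_cons_self _ _, isCorner_coe.2 (by rw [ctr_new]; simp)⟩⟩
    have h := dart_last u (l ++ v :: m) (by simp)
    have h4 : (l ++ v :: m).getLastD u = m.getLastD v := by
      rw [getLastD_app]
    rwa [h4] at h
  · right
    refine ⟨l.getLastD u, ⟨_, Multiset.mem_cons_self _ _, isDart_coe.2 ?_⟩,
      ⟨_, hm1, _, Multiset.mem_cons_self _ _, isCorner_coe.2 (by rw [ctr_new]; simp)⟩⟩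
    have h := dart_last v (m ++ u :: l) (by simp)
    have h4 : (m ++ u :: l).getLastD v = l.getLastD u := by
      rw [getLastD_app]
    rw [h4] at h
    have h5 : (v :: (m ++ u :: l)) ~r (u :: (l ++ v :: m)) := by
      have := List.isRotated_append (l := v :: m) (l' := u :: l)
      simpa using this
    exact (cprs_perm_of_isRotated h5).mem_iff.1 h

lemma cornerOK {u v : V} {Φ : Region V} {Ψ : Multiset (Region V)} (h : RegionMove u v Φ Ψ) :
    CornerOK u v Φ Ψ := by
  cases h with
  | join l m R => exact cornerOK_join u v l m R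
  | split l m R₁ R₂ => exact cornerOK_split u v l m R₁ R₂

/-- an isolated point has no neighbour -/
lemma isolated {Φ : Region V} {G : Multiset (Region V)} {a x : V} {R : Region V}
    (hR : Φ = (↑[a] : Cycle V) ::ₘ R) (hG : ¬ InR G a) (hR' : ¬ InR {R} a) : ¬ Adj (Φ ::ₘ G) a x := by
  rintro ⟨Φ', hΦ', w, hw, hd⟩
  rcases Multiset.mem_cons.1 hΦ' with rfl | hΦ'
  · rw [hR] at hw
    rcases Multiset.mem_cons.1 hw with rfl | hw
    · rw [isDart_coe, isDart_coe] at hd
      simp at hd
    · apply hR'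
      rw [inR_sing]
      exact ⟨w, hw, hd.elim IsDart.mem_left IsDart.mem_right⟩
  · exact hG ⟨Φ', hΦ', w, hw, hd.elim IsDart.mem_left IsDart.mem_right⟩

theorem pf_SD (h : T_SC) : T_SD := by
  intro n D hD
  induction hD with
  | refl =>
    intro a s _ _ x y hx _
    exfalso
    obtain ⟨Φ, hΦ, w, hw, hd⟩ := hx
    simp only [start, Multiset.mem_singleton] at hΦ
    subst hΦ
    obtain ⟨v, _, rfl⟩ := Multiset.mem_map.1 hw
    rw [isDart_coe, isDart_coe] at hd
    simp at hd
  | @tail D D' hD hDD' ih =>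
    intro a s hflip hcor
    obtain ⟨_, _, _, _, _, _, _, _, _, hSC⟩ := h n D hD
    obtain ⟨u, v, huv, _, _, Φ, Ψ, G, hDr, hDr', hm⟩ := hDD'
    obtain ⟨hA, hBu, hBv⟩ := cornerOK hm
    have hadj : ∀ x y, Adj D.regions x y → Adj D'.regions x y := by
      intro x y hxy
      rw [hDr, adj_cons] at hxy
      rw [hDr', adj_add, hm.adj]
      tauto
    have hadj' : ∀ x y, Adj D'.regions x y → Adj D.regions x y ∨ (x = u ∧ y = v) ∨ (x = v ∧ y = u) := by
      intro x y hxy
      rw [hDr', adj_add, hm.adj] at hxy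
      rw [hDr, adj_cons]
      tauto
    have hnew : Adj D'.regions u v := by
      rw [hDr', adj_add, hm.adj]
      tauto
    have hcΨ : ∀ x y, (∃ Φ' ∈ Ψ, ∃ w' ∈ Φ', IsCorner w' x a y) → s x a = s a y := by
      rintro x y ⟨Φ', hΦ', w', hw', hc⟩
      exact hcor Φ' (by rw [hDr']; exact Multiset.mem_add.2 (Or.inl hΦ')) w' hw' x y hc
    have hold := ih a s (fun x hx => hflip x (hadj x a hx)) (by
      intro Φ' hΦ' w hw x y hc
      rw [hDr] at hΦ'
      rcases Multiset.mem_cons.1 hΦ' with rfl | hΦ'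
      · rcases hA w hw x a y hc with h1 | ⟨rfl, h1, h2⟩ | ⟨rfl, h1, h2⟩
        · exact hcΨ x y h1
        · rw [hcΨ x v h1, ← hflip v hnew.symm, hcΨ v y h2]
        · rw [hcΨ x u h1, ← hflip u hnew, hcΨ u y h2]
      · exact hcor Φ' (by rw [hDr']; exact Multiset.mem_add.2 (Or.inr hΦ')) w hw x y hc)
    have key : ∀ x, Adj D.regions a x → (a = u → s a x = s a v) ∧ (a = v → s a x = s a u) := by
      intro x hx
      constructor
      · rintro rfl
        rcases hBu with ⟨R, hR⟩ | ⟨z, ⟨w, hw, hd⟩, hc⟩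
        · obtain ⟨h1, h2⟩ := hSC Φ G a R hDr hR
          rw [hDr] at hx
          exact absurd hx (isolated hR h1 h2)
        · have hza : Adj D.regions z a := ⟨Φ, by rw [hDr]; simp, w, hw, Or.inl hd⟩
          rw [hold x z hx hza.symm, ← hflip z (hadj _ _ hza), hcΨ z v hc]
      · rintro rfl
        rcases hBv with ⟨R, hR⟩ | ⟨z, ⟨w, hw, hd⟩, hc⟩
        · obtain ⟨h1, h2⟩ := hSC Φ G a R hDr hR
          rw [hDr] at hx
          exact absurd hx (isolated hR h1 h2)
        · have hza : Adj D.regions z a := ⟨Φ, by rw [hDr]; simp, w, hw, Or.inl hd⟩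
          rw [hold x z hx hza.symm, ← hflip z (hadj _ _ hza), hcΨ z u hc]
    intro x y hx hy
    rcases hadj' a x hx with hx | ⟨h1, h2⟩ | ⟨h1, h2⟩ <;>
      rcases hadj' a y hy with hy | ⟨h3, h4⟩ | ⟨h3, h4⟩
    · exact hold x y hx hy
    · rw [(key x hx).1 h3, h4]
    · rw [(key x hx).2 h3, h4]
    · rw [(key y hy).1 h1, h2]
    · rw [h2, h4]
    · exact absurd (h1.symm.trans h3) huv
    · rw [(key y hy).2 h1, h2]
    · exact absurd (h3.symm.trans h1) huv
    · rw [h2, h4]

end Pool.Agent.H48.DG.SD
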